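import Pool.Agent.Helper38.WY.Goals4
import Pool.Agent.Helper82.PW.WTRV
import Pool.Agent.Helper42.PW.TRN
import Pool.Agent.Helper96.WY.YSGB
import Pool.Agent.Helper85.PW.NGRP
import Pool.Agent.Helper16.PW.NALG
import Pool.Agent.Helper94.PW.NEVL

/-!
# Project WY (MP_fc6b1e_nt), packet WY-Z_TRV: the abstract lifting of the twisted Selmer group with
the local conditions `SigT` at the places of `T`
-/

set_option autoImplicit false

namespace Pool.Agent.Helper41.WY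

open NumberField Polynomial Module IsDedekindDomain Pool.Agent.Helper51.SigLeo
open Pool.Agent.Helper51.RP Pool.Agent.Helper42.PW Pool.Agent.Helper38.WY
open Pool.Agent.Helper77.RL (Sqr LData up act_map act_lift lift)
open Pool.Agent.Helper9.RL (rs_pow pol_rs ext_pow comm_rs)
open Pool.Agent.Helper59.PPB (exists_pull_ring)
open Pool.Agent.Helper82.PW (locW_mul locW_pow locW_one locW_inv locW_ring)

section main

variable {p : ℕ} [hp : Fact p.Prime]
  {K M M' M₂ : Type} [Field K] [Field M] [Field M'] [Field M₂] [NumberField M₂] [Algebra K M]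
  [Algebra K M'] [Algebra M M'] [Algebra M' M₂] [Algebra K M₂] [IsScalarTower K M M']
  [IsScalarTower K M' M₂]

theorem pwT_map (τ : M₂ →+* ℂ_[p]) (y : M₂) : PwT p τ (y ^ p) :=
  ⟨τ y, subset_closure ⟨y, rfl⟩, by rw [map_pow]⟩

/-- The Selmer group over `M'`. -/
theorem sub_exists (hG : N_GRP) (hT : N_TRN) (hS : Y_SGB) (δ₁ : M' ≃ₐ[K] M')
    (hcomm : ∀ (g : M' ≃ₐ[M] M') (y : M'), g (δ₁ y) = δ₁ (g y))
    (P : (ZMod p)[X]) (T : Set (K →+* ℂ_[p])) (ε β : M₂) (hε : IsPrimitiveRoot ε p) (hβ : β ≠ 0)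
    (hst : ∀ g : M' ≃ₐ[M] M', ∃ (f : M₂ ≃+* M₂) (c : M₂),
      (∀ x : M', f (algebraMap M' M₂ x) = algebraMap M' M₂ (g x)) ∧ f ε = ε ∧ f β = β * c ^ p) :
    ∃ V : Subgroup M'ˣ, (∀ x, x ∈ V ↔ SelX (above T : Set (M₂ →+* ℂ_[p])) P δ₁ ε β x) ∧
      (∀ x, Pw p x → x ∈ V) ∧
      ∀ (g : M' ≃ₐ[M] M'), ∀ x ∈ V, Units.map ((g : M' →+* M') : M' →* M') x ∈ V := by
  have hpos : 0 < p := hp.out.pos
  refine ⟨{ carrier := {x | SelX (above T : Set (M₂ →+* ℂ_[p])) P δ₁ ε β x}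
            one_mem' := ?_
            mul_mem' := ?_
            inv_mem' := ?_ }, fun x ↦ Iff.rfl, ?_, ?_⟩
  · rintro x y ⟨hx0, hx1, hx2⟩ ⟨hy0, hy1, hy2⟩
    refine ⟨?_, fun W => ?_, fun τ hτ => ?_⟩
    · obtain ⟨a, ha⟩ := hx0
      obtain ⟨b, hb⟩ := hy0
      exact ⟨a * b, by rw [map_mul, ha, hb, mul_pow]⟩
    · have h := locW_mul hG hβ (x := Units.map (algebraMap M' M₂ : M' →* M₂) x)
        (y := Units.map (algebraMap M' M₂ : M' →* M₂) y) (hx1 W) (hy1 W)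
      rw [← map_mul] at h
      exact h
    · obtain ⟨-, h2, -⟩ := hS p M₂ τ ε β hε hβ
      rw [Units.val_mul, map_mul]
      exact h2 _ _ (hx2 τ hτ) (hy2 τ hτ)
  · refine ⟨⟨1, by rw [map_one, one_pow]⟩, fun W => ?_, fun τ hτ => ?_⟩
    · have h := locW_one (p := p) (W := W) hG hβ
      simpa using h
    · obtain ⟨h1, -⟩ := hS p M₂ τ ε β hε hβ
      have h := h1 _ (pwT_map τ 1)
      rw [one_pow] at h
      simpa using h
  · rintro x ⟨hx0, hx1, hx2⟩
    refine ⟨?_, fun W => ?_, fun τ hτ => ?_⟩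
    · obtain ⟨a, ha⟩ := hx0
      exact ⟨a⁻¹, by rw [map_inv, ha, inv_pow]⟩
    · have h := locW_inv hG hβ (x := Units.map (algebraMap M' M₂ : M' →* M₂) x) (hx1 W)
      rw [← map_inv] at h
      exact h
    · obtain ⟨-, -, h3, -⟩ := hS p M₂ τ ε β hε hβ
      rw [Units.val_inv_eq_inv_val, map_inv₀]
      exact h3 _ ((_root_.map_ne_zero _).2 x.ne_zero) (hx2 τ hτ)
  · rintro x ⟨y, rfl⟩
    refine ⟨⟨pol P δ₁ y, by rw [map_pow]⟩, fun W => ?_, fun τ hτ => ?_⟩
    · have h := locW_pow (p := p) (W := W) hG hβ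
        (Units.map (algebraMap M' M₂ : M' →* M₂) y)
      rw [← map_pow] at h
      exact h
    · obtain ⟨h1, -⟩ := hS p M₂ τ ε β hε hβ
      rw [Units.val_pow_eq_pow_val, map_pow]
      exact h1 _ (pwT_map τ _)
  · rintro g x ⟨hx0, hx1, hx2⟩
    obtain ⟨f, c, hf1, hf3, hf2⟩ := hst g
    have hc0 : c ≠ 0 := by
      rintro rfl
      rw [zero_pow hpos.ne', mul_zero] at hf2
      exact hβ ((map_eq_zero_iff f f.injective).1 hf2)
    refine ⟨?_, fun W => ?_, fun τ hτ => ?_⟩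
    · obtain ⟨a, ha⟩ := hx0
      refine ⟨Units.map ((g : M' →+* M') : M' →* M') a, ?_⟩
      have h1 := act_map (g : M' →+* M') δ₁ δ₁ (fun x ↦ hcomm g x) (lift P) x
      rw [act_lift, act_lift] at h1
      rw [← h1, ha, map_pow]
    · obtain ⟨W', hW'⟩ := exists_pull_ring f W
      have h := locW_ring hG hT f hW' hβ hf2 (hx1 W')
      rw [hf1] at h
      exact h
    · have hτ' : τ.comp (f : M₂ →+* M₂) ∈ (above T : Set (M₂ →+* ℂ_[p])) := by
        change (τ.comp (f : M₂ →+* M₂)).comp (algebraMap K M₂) ∈ T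
        have e : (τ.comp (f : M₂ →+* M₂)).comp (algebraMap K M₂) = τ.comp (algebraMap K M₂) := by
          ext y
          change τ (f (algebraMap K M₂ y)) = τ (algebraMap K M₂ y)
          have e1 : f (algebraMap K M₂ y) = algebraMap K M₂ y := by
            rw [IsScalarTower.algebraMap_apply K M' M₂, hf1,
              IsScalarTower.algebraMap_apply K M M', AlgEquiv.commutes]
          rw [e1]
        rw [e]
        exact hτ
      obtain ⟨-, -, -, h4, -, -, h7⟩ := hS p M₂ τ ε β hε hβ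
      have h := (h7 f _).2 (hx2 _ hτ')
      rw [hf3, hf2, hf1] at h
      have h5 := h4 1 c (Nat.coprime_one_left p) hc0 (algebraMap M' M₂ (g (x : M')))
      rw [pow_one] at h5
      exact h5.1 h

end main

/-- **Z_TRV** -/
theorem z_trv : Pool.Agent.Helper38.WY.Z_TRV := by
  have h1 : N_GRP :=
    Pool.Agent.Helper85.PW.n_grp (Pool.Agent.Helper16.PW.n_alg Pool.Agent.Helper94.PW.n_evl)
  intro p hp n m K M L M' M₂ _ _ _ _ _ _ _ _ _ _ _ _ _ _ _ _ _ _ _ _ _ _ hS δ δL P hirr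
    hpow hext hTor T ε α hε hα hst hM x hx
  by_contra hxp
  have hpp : p.Prime := hp.out
  have : FiniteDimensional K M' := Module.Finite.of_restrictScalars_finite ℚ K M'
  have : FiniteDimensional M M' := Module.Finite.of_restrictScalars_finite ℚ M M'
  obtain ⟨hd1, hd2, hg1, hg2, hf⟩ := Pool.Agent.Helper30.RL.l_sqr p n K M L M' hS
  have := hg1
  set δ₁ : M' ≃ₐ[K] M' := AlgEquiv.restrictScalars K δL with hδ₁
  have hp1 : δ₁ ^ m = 1 := by
    refine hS.gen _ (fun x ↦ ?_) fun y ↦ ?_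
    · rw [rs_pow, ext_pow δ δL hext, hpow]
      rfl
    · rw [rs_pow]
      exact AlgEquiv.commutes _ _
  have hLD : LData p m n δ δ₁ :=
    ⟨hg1, hd1, hext, hp1, fun g y => comm_rs hS δ δL hext g y⟩
  have hTor' : TorOK P δ₁ := hTor
  obtain ⟨V, hV, hVp, hVg⟩ := sub_exists (K := K) h1 n_trn Pool.Agent.Helper96.WY.y_sgb δ₁
    hLD.comm P T ε α hε hα hst
  have hxV : x ∈ V := by
    rw [hV]
    refine ⟨?_, hx.loc, hx.sig⟩
    rw [pol_rs]
    exact hx.pol
  obtain ⟨x', hx'V, hx'p, hx'g⟩ :=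
    Pool.Agent.Helper48.RL.l_fix p M M' n hd1 V hVp hVg ⟨x, hxV, hxp⟩
  obtain ⟨x₀, hx₀, hxx₀⟩ := Pool.Agent.Helper93.RL.l_des Pool.Agent.Helper11.RL.l_pol p K M M' m n
    δ δ₁ P hirr hLD hTor' x' ((hV x').1 hx'V).pol hx'g
  have hup : up x₀ ∈ V := by
    have h6 := V.div_mem hx'V (hVp _ hxx₀)
    rwa [div_div_cancel] at h6
  have hupS := (hV _).1 hup
  have hcomm : algebraMap M' M₂ ((up x₀ : M'ˣ) : M') = algebraMap M M₂ (x₀ : M) := by
    change algebraMap M' M₂ (algebraMap M M' (x₀ : M)) = _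
    rw [← IsScalarTower.algebraMap_apply M M' M₂]
  have hSel : SelX (above T : Set (M₂ →+* ℂ_[p])) P δ ε α x₀ := by
    refine ⟨hx₀, fun W => ?_, fun τ hτ => ?_⟩
    · have h := hupS.loc W
      rwa [hcomm] at h
    · have h := hupS.sig τ hτ
      rwa [hcomm] at h
  obtain ⟨y, hy⟩ := hM x₀ hSel
  apply hx'p
  obtain ⟨w, hw⟩ := hxx₀
  refine ⟨w * up y, ?_⟩
  have h6 : up x₀ = (up y : M'ˣ) ^ p := by
    rw [hy]
    unfold up
    rw [map_pow]
  rw [mul_pow, ← h6, ← hw, div_mul_cancel]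

end Pool.Agent.Helper41.WY
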